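import Pool.Agent.Lib.MP_7523db_al.Connect

/-! MP_7523db_al: there are infinitely many finite insoluble groups with trivial soluble radical
whose soluble graph has diameter at least 4.  The groups are alternating groups of prime degree. -/

namespace Pool.Agent.Results.MP_7523db_al.SolubleGraph

open Equiv MP7523db

lemma solv_closure_normal {G : Type*} [Group G] {N : Subgroup G} (hN : N.Normal)
    (hs : Group.IsSolvable N) (x : G) {m : G} (hm : m ∈ N) :
    Group.IsSolvable (Subgroup.closure ({x, m} : Set G)) := by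
  set K := Subgroup.closure ({x, m} : Set G) with hK
  let q : K →* G ⧸ N := (QuotientGroup.mk' N).comp K.subtype
  have hrange : Group.IsSolvable q.range := by
    have h1 : q.range = Subgroup.closure ({(QuotientGroup.mk' N) x, 1} : Set (G ⧸ N)) := by
      have h2 : q.range = K.map (QuotientGroup.mk' N) := by
        rw [MonoidHom.range_comp, Subgroup.range_subtype]
      have h3 : (QuotientGroup.mk' N) m = 1 := by
        rw [QuotientGroup.mk'_apply, QuotientGroup.eq_one_iff]; exact hm
      rw [h2, hK, MonoidHom.map_closure, Set.image_pair, h3]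
    rw [h1]
    exact solv_pair_comm (Commute.one_right _)
  have hker : Group.IsSolvable (N.subgroupOf K) := by
    let ff : N.subgroupOf K →* N :=
      { toFun := fun a => ⟨a.1.1, a.2⟩
        map_one' := rfl
        map_mul' := fun _ _ => rfl }
    refine Group.isSolvable_of_isSolvable_injective (f := ff) ?_
    intro a b hab
    have h : a.1.1 = b.1.1 := congrArg (fun t : N => (t : G)) hab
    exact Subtype.ext (Subtype.ext h)
  refine Group.isSolvable_of_ker_le_range (N.subgroupOf K).subtype q.rangeRestrict ?_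
  intro a ha
  rw [Subgroup.range_subtype, Subgroup.mem_subgroupOf]
  rw [MonoidHom.ker_rangeRestrict, MonoidHom.mem_ker] at ha
  exact (QuotientGroup.eq_one_iff _).1 ha

lemma walk_short {G : Type*} [Group G] {u v : {x : G // x ∉ solubleRadical G}}
    (w : (solubleGraph G).Walk u v) (hw : w.length ≤ 3) :
    ∃ a b : {x : G // x ∉ solubleRadical G},
      Group.IsSolvable (Subgroup.closure ({u.1, a.1} : Set G)) ∧
      Group.IsSolvable (Subgroup.closure ({a.1, b.1} : Set G)) ∧
      Group.IsSolvable (Subgroup.closure ({b.1, v.1} : Set G)) := by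
  have hself : ∀ x : G, Group.IsSolvable (Subgroup.closure ({x, x} : Set G)) :=
    fun x => solv_pair_comm (Commute.refl x)
  match w with
  | .nil => exact ⟨u, u, hself _, hself _, hself _⟩
  | .cons h .nil => exact ⟨u, u, hself _, hself _, h.2⟩
  | .cons (v := a) h (.cons h' .nil) => exact ⟨a, a, h.2, hself _, h'.2⟩
  | .cons (v := a) h (.cons (v := b) h' (.cons h'' .nil)) => exact ⟨a, b, h.2, h'.2, h''.2⟩
  | .cons _ (.cons _ (.cons _ (.cons _ _))) =>
    simp only [SimpleGraph.Walk.length_cons] at hw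
    omega

lemma radical_bot {G : Type*} [Group G] {x y : G} (far : ∀ a b : G, a ≠ 1 → b ≠ 1 →
      Group.IsSolvable (Subgroup.closure ({x, a} : Set G)) →
      Group.IsSolvable (Subgroup.closure ({a, b} : Set G)) →
      Group.IsSolvable (Subgroup.closure ({b, y} : Set G)) → False) : solubleRadical G = ⊥ := by
  rw [solubleRadical, sSup_eq_bot]
  rintro N ⟨hN, hs⟩
  by_contra hne
  obtain ⟨m, hm, hm1⟩ : ∃ m ∈ N, m ≠ 1 := by
    by_contra hcon
    push Not at hcon
    exact hne ((Subgroup.eq_bot_iff_forall N).2 hcon)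
  refine far m m hm1 hm1 (solv_closure_normal hN hs x hm) (solv_pair_comm (Commute.refl _)) ?_
  rw [Set.pair_comm]
  exact solv_closure_normal hN hs y hm

lemma solv_pair_coe {P : Type*} [Group P] (A : Subgroup P) {x y : A}
    (h : Group.IsSolvable (Subgroup.closure ({x, y} : Set A))) :
    Group.IsSolvable (Subgroup.closure ({(x : P), (y : P)} : Set P)) :=
  solv_pair_map A.subtype h

lemma solv_pair_of_coe {P : Type*} [Group P] (A : Subgroup P) {x y : A}
    (h : Group.IsSolvable (Subgroup.closure ({(x : P), (y : P)} : Set P))) :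
    Group.IsSolvable (Subgroup.closure ({x, y} : Set A)) :=
  solv_pair_of_map A.subtype A.subtype_injective h

lemma far_coe {P : Type*} [Group P] (A : Subgroup P) (x0 y0 : P)
    (hg : ∀ a b : P, a ≠ 1 → b ≠ 1 → a ∈ A → b ∈ A →
      Group.IsSolvable (Subgroup.closure ({x0, a} : Set P)) →
      Group.IsSolvable (Subgroup.closure ({a, b} : Set P)) →
      Group.IsSolvable (Subgroup.closure ({b, y0} : Set P)) → False)
    (hx : x0 ∈ A) (hy : y0 ∈ A) (a b : A) : a ≠ 1 → b ≠ 1 →
      Group.IsSolvable (Subgroup.closure ({⟨x0, hx⟩, a} : Set A)) →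
      Group.IsSolvable (Subgroup.closure ({a, b} : Set A)) →
      Group.IsSolvable (Subgroup.closure ({b, ⟨y0, hy⟩} : Set A)) → False := by
  intro ha hb h1 h2 h3
  have ha' : (a : P) ≠ 1 := fun h => ha (Subtype.ext h)
  have hb' : (b : P) ≠ 1 := fun h => hb (Subtype.ext h)
  have e1 := solv_pair_coe _ h1
  have e2 := solv_pair_coe _ h2
  have e3 := solv_pair_coe _ h3
  exact hg a.1 b.1 ha' hb' a.2 b.2 e1 e2 e3

/-- The properties asked for in the question. -/
def Wanted (G : Type) [Group G] : Prop :=
  ¬ Group.IsSolvable G ∧ solubleRadical G = ⊥ ∧ (solubleGraph G).Connected ∧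
    4 ≤ (solubleGraph G).diam

theorem wanted_alternating {p : ℕ} [Fact p.Prime] (hp : Res p) :
    Wanted (alternatingGroup (ZMod p)) := by
  have hge := hp.large.ge
  have hmod := hp.mod
  obtain ⟨g, hg⟩ := far_perm hp
  have hpodd : Odd p := by rw [Nat.odd_iff]; omega
  set x0 : Perm (ZMod p) := Equiv.addRight (1 : ZMod p) with hx0
  have hx0p : x0 ^ p = 1 := by
    ext y; rw [hx0, addRight_pow]; simp
  have hx01 : x0 ≠ 1 := by
    intro h
    have := congrArg (fun q : Perm (ZMod p) => q 0) h
    simp [hx0] at this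
  have hx0s : Perm.sign x0 = 1 := by
    have h3 : Perm.sign x0 ^ p = 1 := by rw [← map_pow, hx0p, map_one]
    rcases Int.units_eq_one_or (Perm.sign x0) with h4 | h4
    · exact h4
    · rw [h4, hpodd.neg_one_pow] at h3
      exact absurd h3 (by decide)
  have hy0s : Perm.sign (g * x0 * g⁻¹) = 1 := by simp [hx0s]
  have hy01 : g * x0 * g⁻¹ ≠ 1 := by
    intro h
    apply hx01
    have : x0 = g⁻¹ * (g * x0 * g⁻¹) * g := by group
    rw [this, h]; group
  let x : alternatingGroup (ZMod p) := ⟨x0, Perm.mem_alternatingGroup.2 hx0s⟩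
  let y : alternatingGroup (ZMod p) := ⟨g * x0 * g⁻¹, Perm.mem_alternatingGroup.2 hy0s⟩
  have hx1 : x ≠ 1 := fun h => hx01 (congrArg Subtype.val h)
  have hy1 : y ≠ 1 := fun h => hy01 (congrArg Subtype.val h)
  have far : ∀ a b : alternatingGroup (ZMod p), a ≠ 1 → b ≠ 1 →
      Group.IsSolvable (Subgroup.closure ({x, a} : Set (alternatingGroup (ZMod p)))) →
      Group.IsSolvable (Subgroup.closure ({a, b} : Set (alternatingGroup (ZMod p)))) →
      Group.IsSolvable (Subgroup.closure ({b, y} : Set (alternatingGroup (ZMod p)))) → False := by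
    intro a b ha hb h1 h2 h3
    exact far_coe (alternatingGroup (ZMod p)) x0 (g * x0 * g⁻¹)
      (fun a b ha hb h1 h2 h3 h4 h5 => hg a b ha hb (Perm.mem_alternatingGroup.1 h1)
        (Perm.mem_alternatingGroup.1 h2) h3 h4 h5) _ _ a b ha hb h1 h2 h3
  have hrad : solubleRadical (alternatingGroup (ZMod p)) = ⊥ := radical_bot far
  have hmem : ∀ a : alternatingGroup (ZMod p), a ∉ solubleRadical (alternatingGroup (ZMod p)) ↔
      a ≠ 1 := by
    intro a; rw [hrad, Subgroup.mem_bot]
  have hconn : (solubleGraph (alternatingGroup (ZMod p))).Connected := by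
    have hpr : ∀ r : ℕ, r.Prime → r < p → r + 3 ≤ p := by
      intro r hr hrp
      by_contra hcon
      have h1 : r = p - 1 ∨ r = p - 2 := by omega
      rcases h1 with h1 | h1
      · have : 2 ∣ r := by omega
        have := (Nat.prime_dvd_prime_iff_eq Nat.prime_two hr).1 this
        omega
      · have : 3 ∣ r := by omega
        have := (Nat.prime_dvd_prime_iff_eq Nat.prime_three hr).1 this
        omega
    let V (s : Perm (ZMod p)) : Prop := s ≠ 1 ∧ Perm.sign s = 1
    let mk (s : Perm (ZMod p)) (h : V s) :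
        {a : alternatingGroup (ZMod p) // a ∉ solubleRadical (alternatingGroup (ZMod p))} :=
      ⟨⟨s, Perm.mem_alternatingGroup.2 h.2⟩, (hmem _).2 (fun e => h.1 (congrArg Subtype.val e))⟩
    have hlink : ∀ s t : Perm (ZMod p), Link s t →
        (∀ hs : V s, ∃ ht : V t, (solubleGraph _).Reachable (mk s hs) (mk t ht)) ∧
        (∀ ht : V t, ∃ hs : V s, (solubleGraph _).Reachable (mk t ht) (mk s hs)) := by
      intro s t h
      induction h with
      | rel s t h =>
        have hst : (solubleGraph (alternatingGroup (ZMod p))).Reachable (mk s h.1) (mk t h.2.1) := by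
          by_cases he : mk s h.1 = mk t h.2.1
          · rw [he]
          · apply SimpleGraph.Adj.reachable
            refine ⟨he, ?_⟩
            exact solv_pair_of_coe _ h.2.2
        exact ⟨fun _ => ⟨h.2.1, hst⟩, fun _ => ⟨h.1, hst.symm⟩⟩
      | refl s => exact ⟨fun hs => ⟨hs, .refl _⟩, fun hs => ⟨hs, .refl _⟩⟩
      | symm s t _ ih => exact ⟨ih.2, ih.1⟩
      | trans s t u _ _ ih1 ih2 =>
        constructor
        · intro hs
          obtain ⟨ht, h1⟩ := ih1.1 hs
          obtain ⟨hu, h2⟩ := ih2.1 ht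
          exact ⟨hu, h1.trans h2⟩
        · intro hu
          obtain ⟨ht, h1⟩ := ih2.2 hu
          obtain ⟨hs, h2⟩ := ih1.2 ht
          exact ⟨hs, h1.trans h2⟩
    have hVx : V x0 := ⟨hx01, hx0s⟩
    have hbase : ∀ s : Perm (ZMod p), ∀ hs : V s,
        ∃ ht : V (tri 0 1 (-1)), (solubleGraph _).Reachable (mk s hs) (mk _ ht) :=
      fun s hs => (hlink s _ (link_all (by omega) hpr hs.1 hs.2)).1 hs
    have : Nonempty {a : alternatingGroup (ZMod p) //
        a ∉ solubleRadical (alternatingGroup (ZMod p))} := ⟨mk x0 hVx⟩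
    refine SimpleGraph.Connected.mk (fun a b => ?_)
    have ha : V a.1.1 := ⟨fun h => (hmem a.1).1 a.2 (Subtype.ext h),
      Perm.mem_alternatingGroup.1 a.1.2⟩
    have hb : V b.1.1 := ⟨fun h => (hmem b.1).1 b.2 (Subtype.ext h),
      Perm.mem_alternatingGroup.1 b.1.2⟩
    obtain ⟨ht, h1⟩ := hbase _ ha
    obtain ⟨ht', h2⟩ := hbase _ hb
    exact h1.trans h2.symm
  refine ⟨?_, hrad, hconn, ?_⟩
  · intro hs
    exact far x x hx1 hx1 inferInstance inferInstance inferInstance
  · have := hconn.nonempty
    have hne : (solubleGraph (alternatingGroup (ZMod p))).ediam ≠ ⊤ :=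
      SimpleGraph.connected_iff_ediam_ne_top.1 hconn
    refine le_trans ?_ (SimpleGraph.dist_le_diam hne
      (u := ⟨x, (hmem x).2 hx1⟩) (v := ⟨y, (hmem y).2 hy1⟩))
    by_contra hlt
    obtain ⟨w, hw⟩ := hconn.exists_walk_length_eq_dist ⟨x, (hmem x).2 hx1⟩ ⟨y, (hmem y).2 hy1⟩
    obtain ⟨a, b, h1, h2, h3⟩ := walk_short w (by omega)
    exact far a.1 b.1 ((hmem _).1 a.2) ((hmem _).1 b.2) h1 h2 h3

/-- **MP_7523db_al, Q1: yes.** There is an infinite sequence of pairwise non-isomorphic finite
insoluble groups with trivial soluble radical whose soluble graph (which is connected) has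
diameter at least 4. -/
theorem result : ∃ (G : ℕ → Type) (_ : ∀ i, Group (G i)),
    (∀ i, Finite (G i)) ∧ (∀ i j, i ≠ j → IsEmpty (G i ≃* G j)) ∧
    ∀ i, ¬ Group.IsSolvable (G i) ∧ solubleRadical (G i) = ⊥ ∧
      (solubleGraph (G i)).Connected ∧ 4 ≤ (solubleGraph (G i)).diam := by
  obtain ⟨P0, hP0⟩ := exists_large
  have key : ∀ N : ℕ, ∃ n > N, ∃ (G : Type) (_ : Group G), Finite G ∧ Nat.card G = n ∧
      Wanted G := by
    intro N
    obtain ⟨p, hpN, hpp, hpm⟩ := Nat.forall_exists_prime_gt_and_modEq (N + P0)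
      (q := 420) (a := 107) (by norm_num) (by norm_num)
    have : Fact p.Prime := ⟨hpp⟩
    have hres : Res p := ⟨by have : p % 420 = 107 % 420 := hpm; simpa using this,
      hP0 p (by omega)⟩
    refine ⟨Nat.card (alternatingGroup (ZMod p)), ?_, alternatingGroup (ZMod p), inferInstance,
      inferInstance, rfl, wanted_alternating hres⟩
    have hge := hres.large.ge
    have : Nontrivial (ZMod p) := inferInstance
    have h1 : 2 * Fintype.card (alternatingGroup (ZMod p)) = Fintype.card (Perm (ZMod p)) :=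
      two_mul_card_alternatingGroup
    rw [Fintype.card_perm, ZMod.card] at h1
    rw [Nat.card_eq_fintype_card]
    have h2 : p ^ 6 ≤ p.factorial := pow6_le_fact hge
    have h3 : p * 2 ≤ p ^ 6 := by
      calc p * 2 ≤ p * p ^ 5 := by
            apply Nat.mul_le_mul_left
            calc 2 ≤ p := by omega
              _ ≤ p ^ 5 := Nat.le_self_pow (by norm_num) _
        _ = p ^ 6 := by ring
    omega
  obtain ⟨f, hf, hfP⟩ := Nat.exists_strictMono_subsequence key
  choose G hG hfin hcard hW using hfP
  refine ⟨G, hG, hfin, ?_, fun i => hW i⟩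
  intro i j hij
  refine ⟨fun e => hij ?_⟩
  apply hf.injective
  rw [← hcard i, ← hcard j]
  exact Nat.card_congr e.toEquiv

end Pool.Agent.Results.MP_7523db_al.SolubleGraph
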